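import Mathlib

set_option autoImplicit false

/-!
# Project DF: the clique inequality of Moon and Moser
-/

namespace Pool.Agent.D0H98.DF

open Finset

section

variable {V : Type} [Fintype V] [DecidableEq V] (G : SimpleGraph V)

open scoped Classical in
/-- the cliques with `s` vertices -/
noncomputable def Ks (s : ℕ) : Finset (Finset V) :=
  univ.filter fun T => G.IsClique (T : Set V) ∧ T.card = s

open scoped Classical in
/-- the common neighbours -/
noncomputable def Nb (T : Finset V) : Finset V :=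
  univ.filter fun y => ∀ t ∈ T, G.Adj t y

variable {G}

theorem mem_Ks {s : ℕ} {T : Finset V} : T ∈ Ks G s ↔ G.IsClique (T : Set V) ∧ T.card = s := by
  simp [Ks]

theorem mem_Nb {T : Finset V} {y : V} : y ∈ Nb G T ↔ ∀ t ∈ T, G.Adj t y := by
  simp [Nb]

theorem not_mem_of_Nb {T : Finset V} {y : V} (h : y ∈ Nb G T) : y ∉ T := fun h1 =>
  (G.irrefl (mem_Nb.1 h y h1))

theorem double_count (s : ℕ) (F : Finset V → ℕ) :
    ∑ T ∈ Ks G s, ∑ _x ∈ Nb G T, F T = ∑ A ∈ Ks G (s + 1), ∑ x ∈ A, F (A.erase x) := by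
  rw [Finset.sum_sigma', Finset.sum_sigma']
  refine Finset.sum_bij' (fun p _ => ⟨insert p.2 p.1, p.2⟩) (fun p _ => ⟨p.1.erase p.2, p.2⟩)
    ?_ ?_ ?_ ?_ ?_
  · rintro ⟨T, x⟩ hp
    rw [mem_sigma] at hp ⊢
    obtain ⟨h1, h2⟩ := hp
    rw [mem_Ks] at h1
    refine ⟨mem_Ks.2 ⟨?_, ?_⟩, mem_insert_self _ _⟩
    · rw [coe_insert, SimpleGraph.isClique_insert]
      exact ⟨h1.1, fun b hb _ => (mem_Nb.1 h2 b (mem_coe.1 hb)).symm⟩
    · rw [card_insert_of_notMem (not_mem_of_Nb h2), h1.2]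
  · rintro ⟨A, x⟩ hp
    rw [mem_sigma] at hp ⊢
    obtain ⟨h1, h2⟩ := hp
    rw [mem_Ks] at h1
    refine ⟨mem_Ks.2 ⟨?_, ?_⟩, mem_Nb.2 ?_⟩
    · exact h1.1.subset (by rw [coe_subset]; exact erase_subset _ _)
    · rw [card_erase_of_mem h2, h1.2]
      rfl
    · intro t ht
      rw [mem_erase] at ht
      exact h1.1 (mem_coe.2 ht.2) (mem_coe.2 h2) ht.1
  · rintro ⟨T, x⟩ hp
    rw [mem_sigma] at hp
    have h3 : (insert x T).erase x = T := erase_insert (not_mem_of_Nb hp.2)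
    simp only [h3]
  · rintro ⟨A, x⟩ hp
    rw [mem_sigma] at hp
    have h3 : insert x (A.erase x) = A := insert_erase hp.2
    simp only [h3]
  · rintro ⟨T, x⟩ hp
    rw [mem_sigma] at hp
    have h3 : (insert x T).erase x = T := erase_insert (not_mem_of_Nb hp.2)
    simp only [h3]

theorem sum_d (s : ℕ) : ∑ T ∈ Ks G s, (Nb G T).card = (s + 1) * (Ks G (s + 1)).card := by
  have h := double_count (G := G) s (fun _ => 1)
  simp only [sum_const, smul_eq_mul, mul_one] at h
  rw [h, sum_congr rfl (fun A hA => (mem_Ks.1 hA).2), sum_const, smul_eq_mul, mul_comm]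

theorem sum_d_sq (s : ℕ) : ∑ T ∈ Ks G s, (Nb G T).card ^ 2 =
    ∑ A ∈ Ks G (s + 1), ∑ x ∈ A, (Nb G (A.erase x)).card := by
  have h := double_count (G := G) s (fun T => (Nb G T).card)
  simp only [sum_const, smul_eq_mul] at h
  rw [← h]
  exact sum_congr rfl fun T _ => sq _

theorem one_clique {s : ℕ} {A : Finset V} (hA : A ∈ Ks G (s + 1)) :
    ∑ x ∈ A, (Nb G (A.erase x)).card ≤ Fintype.card V + s * (Nb G A).card := by
  classical
  have h1 : ∀ x, (Nb G (A.erase x)).card = ∑ y : V, if y ∈ Nb G (A.erase x) then 1 else 0 := by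
    intro x
    rw [← sum_filter, sum_const, smul_eq_mul, mul_one, filter_mem_eq_inter, univ_inter]
  rw [sum_congr rfl fun x _ => h1 x, sum_comm]
  have h2 : ∀ y : V, (∑ x ∈ A, if y ∈ Nb G (A.erase x) then 1 else 0) ≤
      1 + s * (if y ∈ Nb G A then 1 else 0) := by
    intro y
    rw [← sum_filter, sum_const, smul_eq_mul, mul_one]
    by_cases hy : y ∈ Nb G A
    · rw [if_pos hy, mul_one]
      calc (A.filter _).card ≤ A.card := card_filter_le _ _
        _ = s + 1 := (mem_Ks.1 hA).2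
        _ = 1 + s := add_comm _ _
    · rw [if_neg hy, mul_zero, add_zero, card_le_one]
      have h3 : ∃ z ∈ A, ¬ G.Adj z y := by
        by_contra hcon
        push Not at hcon
        exact hy (mem_Nb.2 hcon)
      obtain ⟨z, hz, hzy⟩ := h3
      have h4 : ∀ x ∈ A.filter (fun x => y ∈ Nb G (A.erase x)), x = z := by
        intro x hx
        by_contra hne
        exact hzy (mem_Nb.1 (mem_filter.1 hx).2 z (mem_erase.2 ⟨fun h => hne h.symm, hz⟩))
      intro a ha b hb
      rw [h4 a ha, h4 b hb]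
  calc (∑ y : V, ∑ x ∈ A, if y ∈ Nb G (A.erase x) then 1 else 0)
      ≤ ∑ y : V, (1 + s * (if y ∈ Nb G A then 1 else 0)) := sum_le_sum fun y _ => h2 y
    _ = Fintype.card V + s * (Nb G A).card := by
      rw [sum_add_distrib, ← mul_sum, sum_const, card_univ, smul_eq_mul, mul_one, ← sum_filter,
        sum_const, smul_eq_mul, mul_one, filter_mem_eq_inter, univ_inter]

theorem moon_moser (s : ℕ) :
    (s + 1) ^ 2 * (Ks G (s + 1)).card ^ 2 ≤
      (Ks G s).card * (s * (s + 2) * (Ks G (s + 2)).card +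
        Fintype.card V * (Ks G (s + 1)).card) := by
  have h1 : (∑ T ∈ Ks G s, (Nb G T).card) ^ 2 ≤ (Ks G s).card * ∑ T ∈ Ks G s, (Nb G T).card ^ 2 :=
    sq_sum_le_card_mul_sum_sq
  have h2 : ∑ T ∈ Ks G s, (Nb G T).card ^ 2 ≤
      s * (s + 2) * (Ks G (s + 2)).card + Fintype.card V * (Ks G (s + 1)).card := by
    rw [sum_d_sq]
    calc ∑ A ∈ Ks G (s + 1), ∑ x ∈ A, (Nb G (A.erase x)).card
        ≤ ∑ A ∈ Ks G (s + 1), (Fintype.card V + s * (Nb G A).card) :=
          sum_le_sum fun A hA => one_clique hA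
      _ = s * (s + 2) * (Ks G (s + 2)).card + Fintype.card V * (Ks G (s + 1)).card := by
        rw [sum_add_distrib, ← mul_sum, sum_d, sum_const, smul_eq_mul]
        ring
  calc (s + 1) ^ 2 * (Ks G (s + 1)).card ^ 2 = (∑ T ∈ Ks G s, (Nb G T).card) ^ 2 := by
        rw [sum_d, mul_pow]
    _ ≤ _ := h1.trans (Nat.mul_le_mul_left _ h2)

end

end Pool.Agent.D0H98.DF
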