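import Pool.Agent.D0H10.DF.Stm
import Pool.Agent.D0H98.DF.MMa

set_option autoImplicit false

/-!
# Project DF: MM
-/

namespace Pool.Agent.D0H98.DF

open Finset Pool.Agent.D0H10.DF

theorem kq_eq {V : Type} [Fintype V] [DecidableEq V] (G : SimpleGraph V) (s : ℕ) : kq G s = (Ks G s).card := by
  unfold kq
  rw [← Set.ncard_coe_finset]
  congr 1
  ext T
  rw [mem_coe, mem_Ks]
  rfl

theorem t_MM : S_MM := by
  classical
  intro V _ G s _
  rw [kq_eq G s, kq_eq G (s + 1), kq_eq G (s + 2)]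
  exact moon_moser s

end Pool.Agent.D0H98.DF
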