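import Mathlib

set_option autoImplicit false

/-!
# Project DF: partial sums of binomial coefficients
-/

namespace Pool.Agent.D0H98.DF

open Finset

/-- the partial sums -/
def ps (n r : ℕ) : ℕ := ∑ i ∈ range r, n.choose i

theorem ps_succ (N r : ℕ) : ps (N + 1) (r + 1) = 2 * ps N r + N.choose r := by
  have h1 : ps N (r + 1) = ps N r + N.choose r := sum_range_succ _ _
  have h2 : ps N (r + 1) = ∑ i ∈ range r, N.choose (i + 1) + 1 := by
    unfold ps
    rw [sum_range_succ', Nat.choose_zero_right]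
  have h3 : ps (N + 1) (r + 1) = ∑ i ∈ range r, (N.choose i + N.choose (i + 1)) + 1 := by
    unfold ps
    rw [sum_range_succ', Nat.choose_zero_right]
    rfl
  rw [h3, sum_add_distrib]
  have h4 : ∑ i ∈ range r, N.choose i = ps N r := rfl
  rw [h4]
  omega

theorem choose_ratio (j k : ℕ) : (k + 1) * (j + 2 * (k + 1)).choose (k + 1) ≤
    (j + k + 2) * ps (j + 2 * (k + 1)) (k + 1) := by
  have h1 := Nat.choose_succ_right_eq (j + 2 * (k + 1)) k
  have h2 : j + 2 * (k + 1) - k = j + k + 2 := by omega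
  rw [h2] at h1
  have h3 : (j + 2 * (k + 1)).choose k ≤ ps (j + 2 * (k + 1)) (k + 1) := by
    unfold ps
    exact single_le_sum (f := fun i => (j + 2 * (k + 1)).choose i) (fun i _ => Nat.zero_le _)
      (mem_range.2 (Nat.lt_succ_self k))
  calc (k + 1) * (j + 2 * (k + 1)).choose (k + 1) = (j + 2 * (k + 1)).choose k * (j + k + 2) := by
        rw [← h1, mul_comm]
    _ ≤ ps (j + 2 * (k + 1)) (k + 1) * (j + k + 2) := Nat.mul_le_mul_right _ h3
    _ = _ := mul_comm _ _

/-- `m = j + k + 1` -/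
theorem ratio (j k : ℕ) : (j + 1) * ps (j + 2 * (k + 1) + 1) (k + 2) ≤
    (j + k + 1) * (j + k + 4) * ps (j + 2 * (k + 1)) (k + 1) := by
  have h1 := ps_succ (j + 2 * (k + 1)) (k + 1)
  have h2 := choose_ratio j k
  rw [h1]
  set B := ps (j + 2 * (k + 1)) (k + 1)
  set C := (j + 2 * (k + 1)).choose (k + 1)
  apply Nat.le_of_mul_le_mul_left (c := k + 1) _ (Nat.succ_pos k)
  calc (k + 1) * ((j + 1) * (2 * B + C)) = (j + 1) * (2 * (k + 1) * B + (k + 1) * C) := by ring
    _ ≤ (j + 1) * (2 * (k + 1) * B + (j + k + 2) * B) := by gcongr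
    _ = (j + 1) * (j + 3 * k + 4) * B := by ring
    _ ≤ (k + 1) * ((j + k + 1) * (j + k + 4)) * B := by
      apply Nat.mul_le_mul_right
      have e1 : j + 1 ≤ j + k + 1 := by omega
      have e2 : j + 3 * k + 4 ≤ (k + 1) * (j + k + 4) := by nlinarith [Nat.zero_le (j * k), Nat.zero_le (k * k)]
      calc (j + 1) * (j + 3 * k + 4) ≤ (j + k + 1) * ((k + 1) * (j + k + 4)) :=
            Nat.mul_le_mul e1 e2
        _ = _ := by ring
    _ = _ := by ring

end Pool.Agent.D0H98.DF
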