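import Pool.Agent.D0H10.DF.Stm
import Pool.Agent.D0H98.DF.RBa

set_option autoImplicit false

/-!
# Project DF: RB
-/

namespace Pool.Agent.D0H98.DF

open Finset Pool.Agent.D0H10.DF

theorem b_eq {m j : ℕ} (h : j ≤ m) : b m j = (ps (2 * m + 1 - j) (m - j + 1) : ℤ) := by
  unfold b ps
  rw [if_pos h]
  push_cast
  rfl

theorem t_RB : S_RB := by
  intro m
  refine ⟨?_, ?_, ?_, ?_⟩
  · rw [b_eq le_rfl]
    unfold ps
    simp
  · rw [b_eq (Nat.zero_le m)]
    unfold ps
    rw [Nat.sub_zero, Nat.sub_zero, Nat.sum_range_choose_halfway]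
    push_cast
    rfl
  · intro j hj
    rw [b_eq hj]
    unfold ps
    rw [sum_range_succ', Nat.choose_zero_right]
    positivity
  · intro j hj
    obtain ⟨k, rfl⟩ : ∃ k, m = j + k + 1 := ⟨m - j - 1, by omega⟩
    rw [b_eq hj.le, b_eq (by omega)]
    have e1 : 2 * (j + k + 1) + 1 - j = j + 2 * (k + 1) + 1 := by omega
    have e2 : j + k + 1 - j + 1 = k + 2 := by omega
    have e3 : 2 * (j + k + 1) + 1 - (j + 1) = j + 2 * (k + 1) := by omega
    have e4 : j + k + 1 - (j + 1) + 1 = k + 1 := by omega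
    rw [e1, e2, e3, e4]
    have h := ratio j k
    have h' : ((j + 1 : ℕ) : ℤ) * (ps (j + 2 * (k + 1) + 1) (k + 2) : ℤ) ≤
        (((j + k + 1) * (j + k + 4) : ℕ) : ℤ) * (ps (j + 2 * (k + 1)) (k + 1) : ℤ) := by
      exact_mod_cast h
    push_cast at h' ⊢
    linarith

end Pool.Agent.D0H98.DF
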